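import Pool.Agent.MWidth.L_upper_W2
import Pool.Agent.MWidth.L_lower_W1
import Pool.Agent.MWidth.L_upper_bar
import Pool.Agent.MWidth.L_lower_bar

/-!
# MP_572ff6_an, Q1 and Q2: order of the entropy numbers of `W^{a,b}_∞` and of `W̄^{a,b}_∞`
in `L_p`, `d ≥ 3`

For `d ≥ 3`, `1 ≤ p < ∞`, every real `b` and every `a > max(1/2, 1 - 1/p)`
(the range in which the case `d = 2` of Q1 was known)
`ε_k(W^{a,b}_∞, L_p) ≍ ε_k(W̄^{a,b}_∞, L_p) ≍ k^(-a) (log k)^((d-1)(a+b) - 1/2)`.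

The upper bounds are new.  Method: a Gaussian vector `u` in `T(ΔQ_n)` (or in `T(Q_n)`) with variance
`≈ n` satisfies `E ‖P(exp(u - σ²/2)) - u‖₂² ≤ C n^(3-d)`, so it is the projection of a measure of
norm `≤ C`; hence the mean width of the sup-norm ball of `T(ΔQ_n)` is `≤ C (|ΔQ_n|/n)^(1/2)`, and
Sudakov's inequality gives the entropy of that ball in `L_2` for all `k`.

Definitions: `Pool/Agent/HypVol/Defs.lean` (`rho`, `layer`, `TP`, `fc`),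
`Pool/Agent/MWidth/Defs.lean` (`lay`, `lam`, `Wab`, `entP`) and
`Pool/Agent/MWidth/Defs2.lean` (`crs`, `TQ`, `Wbar`).
-/

namespace Pool.Agent.Results.MP_572ff6_an.EntropyOrderBoth

open MWidth

theorem result (d : ℕ) (hd : 3 ≤ d) (p a b : ℝ) (hp : 1 ≤ p) (ha : 1 / 2 < a) (ha' : 1 - 1 / p < a) :
    (∃ c C : ℝ, 0 < c ∧ 0 < C ∧ ∀ k : ℕ, 2 ≤ k →
      ENNReal.ofReal (c * (k:ℝ)^(-a) * (Real.log k)^(((d:ℝ)-1) * (a + b) - 1/2))
        ≤ entP d p k (Wab d a b) ∧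
      entP d p k (Wab d a b)
        ≤ ENNReal.ofReal (C * (k:ℝ)^(-a) * (Real.log k)^(((d:ℝ)-1) * (a + b) - 1/2))) ∧
    (∃ c C : ℝ, 0 < c ∧ 0 < C ∧ ∀ k : ℕ, 2 ≤ k →
      ENNReal.ofReal (c * (k:ℝ)^(-a) * (Real.log k)^(((d:ℝ)-1) * (a + b) - 1/2))
        ≤ entP d p k (Wbar d a b) ∧
      entP d p k (Wbar d a b)
        ≤ ENNReal.ofReal (C * (k:ℝ)^(-a) * (Real.log k)^(((d:ℝ)-1) * (a + b) - 1/2))) := by
  constructor
  · obtain ⟨c, hc, h1⟩ := lower_W1 d (by omega) p hp a b (by linarith)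
    obtain ⟨C, hC, h2⟩ := upper_W2 d hd p hp a b ha ha'
    exact ⟨c, C, hc, hC, fun k hk => ⟨h1 k hk, h2 k hk⟩⟩
  · obtain ⟨c, hc, h1⟩ := lower_bar d (by omega) p hp a b (by linarith)
    obtain ⟨C, hC, h2⟩ := upper_bar d hd p hp a b ha ha'
    exact ⟨c, C, hc, hC, fun k hk => ⟨h1 k hk, h2 k hk⟩⟩

end Pool.Agent.Results.MP_572ff6_an.EntropyOrderBoth
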